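import Mathlib
import Pool.Agent.H136.SunMixing

set_option autoImplicit false

namespace Pool.Agent.Results.MP_067019_co.SunNotAttained

open Pool.Agent.H136.SunMixing

/-- the rationals `r` such that `G` is `(k,q)`-mixing for all positive integers `k, q` with
`k / q ≥ r`, as real numbers -/
def R {V : Type} (G : SimpleGraph V) : Set ℝ :=
  {ℓ | ∃ r : ℚ, (r : ℝ) = ℓ ∧
    ∀ k q : ℕ, 0 < k → 0 < q → r ≤ (k : ℚ) / (q : ℚ) → Mixing G k q}

/-- **Answer to Q1: disproved.**  There is a finite non-bipartite graph for which the infimum of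
`R(G)` is `4` and is not a minimum. -/
theorem result : ∃ (V : Type) (_ : Fintype V) (G : SimpleGraph V), ¬ G.Colorable 2 ∧
    IsGLB (R G) (4 : ℝ) ∧ (4 : ℝ) ∉ R G := by
  have hnot : ∀ r : ℚ, (r : ℝ) ≤ 4 → (r : ℝ) ∉ R sun := by
    rintro r hr ⟨s, hs, h⟩
    apply not_mixing_sun
    apply h 4 1 (by norm_num) (by norm_num)
    have h1 : (s : ℝ) ≤ ((4 : ℚ) : ℝ) := by rw [hs]; simpa using hr
    have h2 : s ≤ 4 := by exact_mod_cast h1
    simpa using h2
  refine ⟨Fin 7, inferInstance, sun, not_bipartite, ⟨?_, ?_⟩, ?_⟩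
  · rintro ℓ ⟨r, rfl, h⟩
    by_contra hlt
    exact hnot r (not_le.1 hlt).le ⟨r, rfl, h⟩
  · intro x hx
    by_contra hlt
    obtain ⟨r, hr1, hr2⟩ := exists_rat_btwn (not_le.1 hlt)
    have hmem : (r : ℝ) ∈ R sun := by
      refine ⟨r, rfl, fun k q _ hq hkq => mixing_sun hq ?_⟩
      have h4 : (4 : ℚ) < r := by
        have : ((4 : ℚ) : ℝ) < r := by simpa using hr1
        exact_mod_cast this
      have hq' : (0 : ℚ) < q := by exact_mod_cast hq
      have h5 : (4 : ℚ) < k / q := lt_of_lt_of_le h4 hkq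
      rw [lt_div_iff₀ hq'] at h5
      exact_mod_cast h5
    have := hx hmem
    linarith
  · have := hnot 4 (by norm_num)
    simpa using this

end Pool.Agent.Results.MP_067019_co.SunNotAttained
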